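import Mathlib
import Pool.Agent.P.MP_60b77b_nt.Defs2
import Pool.Agent.P.MP_60b77b_nt.Cex

open Pool.Agent.P.MP_60b77b_nt

universe u

theorem Pool.Agent.Results.MP_60b77b_nt.TateDichotomy.result (p : ℕ) (hp : p.Prime)
    (F : Type) [Field F] [ValuativeRel F] [TopologicalSpace F] [IsNonarchimedeanLocalField F]
    (k : Type u) [Field k] [CharP k p] :
    (p : F) ≠ 0 ↔
    ∀ (G : Type) [Group G] [TopologicalSpace G] [IsTopologicalGroup G]
      (n : ℕ) (ι : G →* GL (Fin n) F), Topology.IsClosedEmbedding ι →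
      ∀ σ : MulAut G, Continuous σ → σ ^ p = 1 →
      ∀ H : Subgroup G, (∀ g, g ∈ H ↔ σ g = g) →
      ∀ (V : Type u) [AddCommGroup V] [Module k V] (π : Representation k G V), IsAdmissible π →
      ∀ S : Module.End k V, (∀ g, S * π g = π (σ g) * S) → S ^ p = 1 →
      TateAdm p (π.comp H.subtype) S := by
  constructor
  · intro hF G _ _ _ n ι hι σ hσc hσp H hH V _ _ π hπ S hS hSp
    have h : H = σ.toMonoidHom.eqLocus (MonoidHom.id G) := Subgroup.ext hH
    subst h
    exact main2 p hp F hF k G n ι hι σ hσc hσp V π hπ S hS hSp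
  · intro h hF
    obtain ⟨ι, σ, π, hι, hσc, hσp, hπ, h1, h2⟩ := cex (k := k) hp hF
    have : T2Space F := t2Space_field
    obtain ⟨h₀, h₁, h3, -⟩ := h _ p ι hι σ hσc hσp (σ.toMonoidHom.eqLocus (MonoidHom.id _))
      (fun _ => Iff.rfl) _ π hπ 1 (fun g => by rw [one_mul, mul_one, h1]) (one_pow p)
    have h4 := fin_of_adm hι (isClosed_eq hσc continuous_id) (fun g => h2 g g.2)
      (LinearMap.ext fun v => sub_self v)
      (by
        simp only [one_pow, Finset.sum_const, Finset.card_range]
        rw [← Nat.cast_smul_eq_nsmul k, CharP.cast_eq_zero, zero_smul]) h3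
    exact chr_inf hp hF (FiniteDimensional.of_injective (LinearMap.inr k k (Chr F k))
      LinearMap.inr_injective)
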